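import Pool.Agent.H68.AQ.FQ

/-!
# MP_ec1142_co : Q1 in full

For every graph `G` of order `n ≥ 1`: `A(G) ≥ L_3(n, Δ(G) + 1)`, with equality exactly when `G ≅ K_{1,Δ(G)} ∪ (n - Δ(G) - 1) K_1`.
-/

namespace Pool.Agent.Results.MP_ec1142_co.MaxDegreeStar

open Finset Pool.H68.AC

theorem result.{u} {V : Type u} [Fintype V] [DecidableEq V] [Nonempty V] (G : SimpleGraph V) [DecidableRel G.Adj] :
    L3 (Fintype.card V) (G.maxDegree + 1) ≤ avgColours G ∧
      (avgColours G = L3 (Fintype.card V) (G.maxDegree + 1) ↔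
        Nonempty (G ≃g starPlus (Fintype.card V) G.maxDegree)) :=
  Pool.H68.AQ.fq_main G

end Pool.Agent.Results.MP_ec1142_co.MaxDegreeStar
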